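import Pool.Agent.Helper9.Ends.Defs

/-!
EN-10b: the complement of one component of the complement of a domain is connected.
-/

set_option autoImplicit false

open Set Filter Metric Topology

namespace Pool.Agent.EN

/-- EN-10b -/
theorem compl_connected {Ω : Set ℂ} (ho : IsOpen Ω) (hc : IsConnected Ω) {k : ℕ}
    {K : Fin (k + 1) → Set ℂ} (hK : ∀ j, IsClosed (K j)) (hKc : ∀ j, IsPreconnected (K j))
    (hd : ∀ i j, i ≠ j → Disjoint (K i) (K j)) (hU : (⋃ j, K j) = Ωᶜ) (j : Fin (k + 1)) :
    IsConnected (K j)ᶜ := by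
  obtain ⟨x₀, hx₀⟩ := hc.nonempty
  have hnotK : ∀ l, ∀ x ∈ Ω, x ∉ K l := by
    intro l x hx hxl
    have h1 : x ∈ (⋃ j, K j) := mem_iUnion.mpr ⟨l, hxl⟩
    rw [hU] at h1
    exact h1 hx
  -- every nonempty component of the complement meets the closure of the domain
  have hmeet : ∀ l, (K l).Nonempty → ∃ y, y ∈ K l ∧ y ∈ closure Ω := by
    intro l hne
    by_contra hcon
    push Not at hcon
    have heq : K l = (closure Ω ∪ ⋃ m : {m : Fin (k + 1) // m ≠ l}, K m)ᶜ := by
      ext y
      constructor
      · intro hy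
        simp only [mem_compl_iff, mem_union, mem_iUnion, not_or, not_exists]
        refine ⟨hcon y hy, ?_⟩
        rintro ⟨m, hm⟩ hym
        exact (Set.disjoint_left.mp (hd m l hm) hym) hy
      · intro hy
        simp only [mem_compl_iff, mem_union, mem_iUnion, not_or, not_exists] at hy
        have h1 : y ∈ Ωᶜ := fun h => hy.1 (subset_closure h)
        rw [← hU] at h1
        obtain ⟨m, hm⟩ := mem_iUnion.mp h1
        by_cases hml : m = l
        · rw [← hml]; exact hm
        · exact absurd hm (hy.2 ⟨m, hml⟩)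
    have hopen : IsOpen (K l) := by
      rw [heq]
      have h2 : IsClosed (⋃ m : {m : Fin (k + 1) // m ≠ l}, K m) :=
        isClosed_iUnion_of_finite fun m => hK m.1
      exact (isClosed_closure.union h2).isOpen_compl
    have hclopen : IsClopen (K l) := ⟨hK l, hopen⟩
    have huniv := hclopen.eq_univ hne
    exact hnotK l x₀ hx₀ (huniv ▸ mem_univ x₀)
  have hpre : ∀ l, IsPreconnected (Ω ∪ K l) := by
    intro l
    rcases (K l).eq_empty_or_nonempty with h | h
    · rw [h, union_empty]; exact hc.isPreconnected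
    · obtain ⟨y, hyK, hyc⟩ := hmeet l h
      have h1 : IsPreconnected (insert y Ω) :=
        hc.isPreconnected.subset_closure (subset_insert _ _)
          (insert_subset hyc subset_closure)
      have h2 : IsPreconnected (insert y Ω ∪ K l) :=
        IsPreconnected.union y (mem_insert _ _) hyK h1 (hKc l)
      have h3 : insert y Ω ∪ K l = Ω ∪ K l := by
        ext z
        simp only [mem_union, mem_insert_iff]
        constructor
        · rintro ((rfl | h) | h)
          · exact Or.inr hyK
          · exact Or.inl h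
          · exact Or.inr h
        · rintro (h | h)
          · exact Or.inl (Or.inr h)
          · exact Or.inr h
      rwa [h3] at h2
  refine ⟨⟨x₀, hnotK j x₀ hx₀⟩, ?_⟩
  have hS : (K j)ᶜ = ⋃₀ (insert Ω ((fun l => Ω ∪ K l) '' {l | l ≠ j})) := by
    ext y
    simp only [mem_compl_iff, mem_sUnion, mem_insert_iff, mem_image, mem_ofPred_eq,
      exists_eq_or_imp]
    constructor
    · intro hy
      by_cases hyΩ : y ∈ Ω
      · exact Or.inl hyΩ
      · have h1 : y ∈ (⋃ j, K j) := by rw [hU]; exact hyΩ
        obtain ⟨m, hm⟩ := mem_iUnion.mp h1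
        refine Or.inr ⟨Ω ∪ K m, ⟨m, ?_, rfl⟩, Or.inr hm⟩
        rintro rfl
        exact hy hm
    · rintro (hy | ⟨t, ⟨l, hl, rfl⟩, (hy | hy)⟩)
      · exact hnotK j y hy
      · exact hnotK j y hy
      · exact Set.disjoint_left.mp (hd l j hl) hy
  rw [hS]
  refine isPreconnected_sUnion x₀ _ ?_ ?_
  · intro s hs
    rcases hs with rfl | ⟨l, _, rfl⟩
    · exact hx₀
    · exact Or.inl hx₀
  · intro s hs
    rcases hs with rfl | ⟨l, _, rfl⟩
    · exact hc.isPreconnected
    · exact hpre l

end Pool.Agent.EN
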