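import Pool.Agent.Helper9.Ends.Defs

/-!
EN-6a: the inverted complement of a closed set.
-/

set_option autoImplicit false

open Set Filter Metric Topology

namespace Pool.Agent.EN

theorem invDom_far {K : Set ℂ} (hb : Bornology.IsBounded K) (a : ℂ) :
    ∃ R : ℝ, 0 < R ∧ ∀ z : ℂ, R < ‖z‖ → a + z ∉ K := by
  obtain ⟨R, hR⟩ := hb.subset_ball 0
  refine ⟨max R 0 + ‖a‖ + 1, by positivity, fun z hz hzK => ?_⟩
  have h1 := hR hzK
  rw [mem_ball, dist_zero_right] at h1
  have h2 : ‖z‖ ≤ ‖a + z‖ + ‖a‖ := by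
    have := norm_sub_le (a + z) a
    rwa [add_sub_cancel_left] at this
  have h3 : R ≤ max R 0 := le_max_left _ _
  linarith

/-- EN-6a -/
theorem invDom_isOpen {K : Set ℂ} (hK : IsClosed K) {a : ℂ} (ha : a ∈ interior K) :
    IsOpen (invDom K a) := by
  have _ := ha
  rw [isOpen_iff_mem_nhds]
  rintro w (⟨hw0, hw⟩ | ⟨hw0, hb⟩)
  · have h1 : ∀ᶠ w' in 𝓝 w, w' ≠ 0 := isOpen_ne.mem_nhds hw0
    have h2 : ContinuousAt (fun w' : ℂ => a + w'⁻¹) w :=
      continuousAt_const.add (continuousAt_inv₀ hw0)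
    have h3 : ∀ᶠ w' in 𝓝 w, a + w'⁻¹ ∈ Kᶜ := h2.eventually_mem (hK.isOpen_compl.mem_nhds hw)
    filter_upwards [h1, h3] with w' h h'
    exact Or.inl ⟨h, h'⟩
  · subst hw0
    obtain ⟨R, hR, hfar⟩ := invDom_far hb a
    have h1 : ball (0 : ℂ) R⁻¹ ∈ 𝓝 (0 : ℂ) := ball_mem_nhds _ (inv_pos.mpr hR)
    filter_upwards [h1] with w' h
    by_cases h0 : w' = 0
    · exact Or.inr ⟨h0, hb⟩
    · refine Or.inl ⟨h0, hfar _ ?_⟩
      rw [mem_ball, dist_zero_right] at h
      rw [norm_inv]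
      exact (lt_inv_comm₀ (norm_pos_iff.mpr h0) hR).mp h

theorem invDom_bounded {K : Set ℂ} {a : ℂ} (ha : a ∈ interior K) :
    Bornology.IsBounded (invDom K a) := by
  obtain ⟨ε, hε, hb⟩ := Metric.isOpen_iff.1 isOpen_interior a ha
  refine (isBounded_closedBall (x := (0 : ℂ)) (r := ε⁻¹)).subset ?_
  rintro w (⟨hw0, hw⟩ | ⟨rfl, _⟩)
  · rw [mem_closedBall, dist_zero_right]
    by_contra hcon
    push Not at hcon
    apply hw
    apply interior_subset
    apply hb
    rw [mem_ball, dist_eq_norm, add_sub_cancel_left, norm_inv]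
    exact (inv_lt_comm₀ (norm_pos_iff.mpr hw0) hε).mpr hcon
  · exact mem_closedBall_self (inv_nonneg.mpr hε.le)

theorem invDom_preconnected {K : Set ℂ} {a : ℂ} (ha : a ∈ interior K)
    (hD : IsPreconnected Kᶜ) : IsPreconnected (invDom K a) := by
  have haK : a ∈ K := interior_subset ha
  have himg : IsPreconnected ((fun z : ℂ => (z - a)⁻¹) '' Kᶜ) := by
    refine hD.image _ ?_
    refine ContinuousOn.inv₀ (continuousOn_id.sub continuousOn_const) ?_
    intro z hz h
    have : z = a := sub_eq_zero.mp h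
    exact hz (this ▸ haK)
  have hmem : ∀ w, w ∈ (fun z : ℂ => (z - a)⁻¹) '' Kᶜ ↔ (w ≠ 0 ∧ a + w⁻¹ ∉ K) := by
    intro w
    constructor
    · rintro ⟨z, hz, rfl⟩
      have hza : z - a ≠ 0 := by
        intro h
        have : z = a := sub_eq_zero.mp h
        exact hz (this ▸ haK)
      refine ⟨inv_ne_zero hza, ?_⟩
      rw [inv_inv, add_sub_cancel]
      exact hz
    · rintro ⟨h0, h1⟩
      refine ⟨a + w⁻¹, h1, ?_⟩
      simp
  by_cases hb : Bornology.IsBounded K
  · refine himg.subset_closure ?_ ?_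
    · intro w hw
      exact Or.inl ((hmem w).mp hw)
    · rintro w (h | ⟨rfl, _⟩)
      · exact subset_closure ((hmem w).mpr h)
      · obtain ⟨R, hR, hfar⟩ := invDom_far hb a
        rw [Metric.mem_closure_iff]
        intro ε hε
        have hT : 0 < R + ε⁻¹ + 1 := by positivity
        have hnorm : ‖((R + ε⁻¹ + 1 : ℝ) : ℂ)‖ = R + ε⁻¹ + 1 := by
          rw [Complex.norm_real, Real.norm_of_nonneg hT.le]
        refine ⟨((R + ε⁻¹ + 1 : ℝ) : ℂ)⁻¹, (hmem _).mpr ⟨?_, ?_⟩, ?_⟩
        · apply inv_ne_zero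
          rw [← norm_pos_iff, hnorm]
          exact hT
        · rw [inv_inv]
          apply hfar
          rw [hnorm]
          have : 0 < ε⁻¹ := inv_pos.mpr hε
          linarith
        · rw [dist_zero_left, norm_inv, hnorm]
          apply (inv_lt_comm₀ hT hε).mpr
          linarith
  · have heq : invDom K a = (fun z : ℂ => (z - a)⁻¹) '' Kᶜ := by
      ext w
      rw [hmem]
      constructor
      · rintro (h | ⟨_, h⟩)
        · exact h
        · exact absurd h hb
      · exact fun h => Or.inl h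
    rw [heq]
    exact himg

end Pool.Agent.EN
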