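import Pool.Agent.Helper97.Ends.InvDom
import Pool.Agent.Helper59.Ends.Wind
import Pool.Agent.Helper60.Ends.CauchyHom
import Pool.Agent.Helper23.Ends.Prim

/-!
EN-6b: holomorphic functions on the inverted complement of a connected set have primitives.
-/

set_option autoImplicit false

open Set Filter Metric Topology
open Pool.Agent.Helper61.KS

namespace Pool.Agent.EN

/-- winding numbers of loops in the inverted complement vanish outside -/
theorem invDom_wind {K : Set ℂ} (hKc : IsPreconnected K) {a : ℂ}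
    (ha : a ∈ interior K) {γ : ℝ → ℂ} {x : ℂ} (h : FP (invDom K a) γ x x) :
    ∀ w ∉ invDom K a, PI (fun z => (z - w)⁻¹) γ = 0 := by
  classical
  have haK : a ∈ K := interior_subset ha
  obtain ⟨R, hR⟩ := (invDom_bounded ha).subset_ball 0
  have hR0 : ∀ t, ‖γ t‖ < R := by
    intro t
    have := hR (h.mem t)
    rwa [mem_ball, dist_zero_right] at this
  have hRpos : 0 < R := lt_of_le_of_lt (norm_nonneg _) (hR0 0)
  -- the integer valued function on `K`
  let n : ℂ → ℂ := fun w => PI (fun z => (z - w)⁻¹) γ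
  let f : ℂ → Bool := fun z => decide (z = a ∨ n (z - a)⁻¹ = 0)
  have hnotD : ∀ z ∈ K, z ≠ a → (z - a)⁻¹ ∉ invDom K a := by
    rintro z hz hza (⟨_, h1⟩ | ⟨h0, _⟩)
    · apply h1
      rwa [inv_inv, add_sub_cancel]
    · exact inv_ne_zero (sub_ne_zero.mpr hza) h0
  have hloc : ∀ z ∈ K, ∀ᶠ z' in 𝓝 z, f z' = f z := by
    intro z hz
    by_cases hza : z = a
    · subst hza
      filter_upwards [ball_mem_nhds z (inv_pos.mpr hRpos)] with z' hz'
      by_cases hza' : z' = z
      · rw [hza']
      · have h1 : n (z' - z)⁻¹ = 0 := by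
          refine wind_far h fun t => (hR0 t).trans ?_
          rw [mem_ball, dist_eq_norm] at hz'
          rw [norm_inv]
          exact (lt_inv_comm₀ (norm_pos_iff.mpr (sub_ne_zero.mpr hza')) hRpos).mp hz'
        simp [f, h1]
    · have hne : ∀ t, γ t ≠ (z - a)⁻¹ := by
        intro t ht
        exact hnotD z hz hza (ht ▸ h.mem t)
      have h1 := wind_locConst h hne
      have h2 : ContinuousAt (fun z' : ℂ => (z' - a)⁻¹) z :=
        (continuousAt_id.sub continuousAt_const).inv₀ (sub_ne_zero.mpr hza)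
      have h3 := h2.eventually h1
      have h4 : ∀ᶠ z' in 𝓝 z, z' ≠ a := isOpen_ne.mem_nhds hza
      filter_upwards [h3, h4] with z' hz' hza'
      have h5 : n (z' - a)⁻¹ = n (z - a)⁻¹ := hz'
      simp only [f, hza, hza', h5, false_or]
  have hcont : ContinuousOn f K := by
    intro z hz
    have : ContinuousAt f z := by
      refine (continuousAt_const (y := f z)).congr ?_
      filter_upwards [hloc z hz] with z' hz'
      exact hz'.symm
    exact this.continuousWithinAt
  have hfa : f a = true := by simp [f]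
  have hzero : ∀ z ∈ K, z ≠ a → n (z - a)⁻¹ = 0 := by
    intro z hz hza
    have h1 : f z = f a := hKc.constant hcont hz haK
    rw [hfa] at h1
    have h2 := of_decide_eq_true h1
    exact h2.resolve_left hza
  have hzero' : ∀ w, w ≠ 0 → a + w⁻¹ ∈ K → n w = 0 := by
    intro w hw0 hw
    have h1 := hzero (a + w⁻¹) hw (by simpa using hw0)
    rwa [add_sub_cancel_left, inv_inv] at h1
  intro w hw
  by_cases hw0 : w = 0
  · subst hw0
    have hub : ¬ Bornology.IsBounded K := fun hb => hw (Or.inr ⟨rfl, hb⟩)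
    have hne : ∀ t, γ t ≠ 0 := fun t ht => hw (ht ▸ h.mem t)
    obtain ⟨ε, hε, hball⟩ := Metric.eventually_nhds_iff_ball.mp (wind_locConst h hne)
    -- a point of `K` far away
    have hex : ∃ z ∈ K, ε⁻¹ < ‖z - a‖ := by
      by_contra hcon
      push Not at hcon
      apply hub
      refine (isBounded_closedBall (x := a) (r := ε⁻¹)).subset fun z hz => ?_
      rw [mem_closedBall, dist_eq_norm]
      exact hcon z hz
    obtain ⟨z, hzK, hz⟩ := hex
    have hzpos : 0 < ‖z - a‖ := (inv_pos.mpr hε).trans hz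
    have hza : z ≠ a := fun hza => by simp [hza] at hzpos
    have h1 : (z - a)⁻¹ ∈ ball (0 : ℂ) ε := by
      rw [mem_ball, dist_zero_right, norm_inv]
      exact (inv_lt_comm₀ hzpos hε).mpr hz
    have h2 := hball _ h1
    have h3 : n (z - a)⁻¹ = 0 := hzero z hzK hza
    exact h2.symm.trans h3
  · refine hzero' w hw0 ?_
    by_contra hcon
    exact hw (Or.inl ⟨hw0, hcon⟩)

/-- EN-6b -/
theorem invDom_hasPrim {K : Set ℂ} (hK : IsClosed K) (hKc : IsPreconnected K) {a : ℂ}
    (ha : a ∈ interior K) (hD : IsPreconnected Kᶜ) : HasPrim (invDom K a) := by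
  intro g hg
  refine exists_prim (invDom_isOpen hK ha) (invDom_preconnected ha hD) hg fun γ x h => ?_
  exact cauchy_hom (invDom_isOpen hK ha) hg h (invDom_wind hKc ha h)

end Pool.Agent.EN
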